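import Pool.Agent.BinUp.Final

namespace Pool.Agent.Results.MP_f7f4e7_lc.SampleComplexity

open Pool.Agent.Binning Pool.Agent.BinUp

/-- Two-sided bounds for the sample complexity `s(n, m, ε)` of identity testing up to coarsenings
into intervals (the least `t` with `Testable n m ε t`). -/
theorem result : ∃ c C : ℝ, 0 < c ∧ 0 < C ∧ ∀ (m n : ℕ) (ε : ℝ), 2 ≤ m → m ≤ n → 0 < ε → ε ≤ 1 →
    ∃ s : ℕ, IsLeast {t : ℕ | Testable n m ε t} s ∧
      (n ≤ 2 * m →
        (s : ℝ) ≤ C * (Real.sqrt m + ((n : ℝ) - m) * Real.log m ^ 3) / ε ^ 2) ∧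
      (s : ℝ) ≤ C * (m * Real.log (m / ε)) / ε ^ 2 ∧
      (ε ≤ 1 / 20 → c * Real.sqrt m / ε ^ 2 ≤ s) ∧
      (ε ≤ 1 / (20 * Real.logb 2 m) →
        c * (Real.sqrt m + min ((n : ℝ) - m) m / Real.log m ^ 2) / ε ^ 2 ≤ s) := by
  obtain ⟨C₁, hC₁, hup⟩ := final_upper
  obtain ⟨c₁, hc₁, hlow⟩ := final_lower_log
  obtain ⟨c₂, hc₂, hsq⟩ := lower_bound
  refine ⟨min (c₁ / 4) c₂, 16 * C₁ + 100000, by positivity, by positivity, ?_⟩
  intro m n ε hm hn hε hε1
  have hmR : (2 : ℝ) ≤ m := by exact_mod_cast hm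
  have hm0 : (0 : ℝ) < m := by linarith
  have hm1 : 1 ≤ m := by omega
  have hε2 : 0 < ε ^ 2 := by positivity
  have hε21 : ε ^ 2 ≤ 1 := pow_le_one₀ hε.le hε1
  have hlog2 : (0.69 : ℝ) < Real.log 2 := lt_trans (by norm_num) Real.log_two_gt_d9
  have hlogm : (0.69 : ℝ) < Real.log m := lt_of_lt_of_le hlog2 (Real.log_le_log (by norm_num) hmR)
  have hmε : (m : ℝ) ≤ m / ε := by
    rw [le_div_iff₀ hε]
    nlinarith
  have hmε2 : (2 : ℝ) ≤ m / ε := hmR.trans hmε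
  have hlogmε : (0.69 : ℝ) < Real.log (m / ε) :=
    lt_of_lt_of_le hlogm (Real.log_le_log hm0 hmε)
  have hk0 : (0 : ℝ) ≤ (n : ℝ) - m := by
    have : (m : ℝ) ≤ n := by exact_mod_cast hn
    linarith
  -- the set is nonempty
  have hvc : ∀ t : ℕ, 5000 * (m * Real.log (m / ε + 2)) / ε ^ 2 ≤ t → Testable n m ε t :=
    fun t ht => vc_test' hm1 hn hε hε1 ht
  have hne : ({t : ℕ | Testable n m ε t}).Nonempty :=
    ⟨⌈5000 * (m * Real.log (m / ε + 2)) / ε ^ 2⌉₊, hvc _ (Nat.le_ceil _)⟩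
  classical
  have hleast : IsLeast {t : ℕ | Testable n m ε t} (sInf {t : ℕ | Testable n m ε t}) :=
    ⟨Nat.sInf_mem hne, fun t ht => Nat.sInf_le ht⟩
  refine ⟨sInf {t : ℕ | Testable n m ε t}, hleast, ?_, ?_, ?_, ?_⟩
  · intro hn2
    set A : ℝ := C₁ * (Real.sqrt m + ((n : ℝ) - m) * Real.log (m + 1) ^ 3) / ε ^ 2 with hA
    have h1 : sInf {t : ℕ | Testable n m ε t} ≤ ⌈A⌉₊ :=
      Nat.sInf_le (hup m n ⌈A⌉₊ ε hm1 hn hn2 hε hε1 (Nat.le_ceil _))
    have hlog : Real.log (m + 1) ≤ 2 * Real.log m := by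
      have h3 : (2 : ℝ) * Real.log m = Real.log (m ^ 2) := by
        rw [Real.log_pow]
        norm_num
      rw [h3]
      apply Real.log_le_log (by positivity)
      nlinarith
    have hlog0 : 0 ≤ Real.log ((m : ℝ) + 1) := Real.log_nonneg (by linarith)
    have hcube : Real.log ((m : ℝ) + 1) ^ 3 ≤ 8 * Real.log m ^ 3 := by
      calc Real.log ((m : ℝ) + 1) ^ 3 ≤ (2 * Real.log m) ^ 3 := pow_le_pow_left₀ hlog0 hlog 3
        _ = 8 * Real.log m ^ 3 := by ring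
    have hsqrt : 1 ≤ Real.sqrt m := by
      rw [Real.one_le_sqrt]
      linarith
    have hA0 : 0 ≤ A := by
      rw [hA]
      have : 0 ≤ ((n : ℝ) - m) * Real.log (m + 1) ^ 3 := mul_nonneg hk0 (by positivity)
      positivity
    have h2 : ((sInf {t : ℕ | Testable n m ε t} : ℕ) : ℝ) ≤ A + 1 := by
      calc ((sInf {t : ℕ | Testable n m ε t} : ℕ) : ℝ) ≤ (⌈A⌉₊ : ℝ) := by exact_mod_cast h1
        _ ≤ A + 1 := (Nat.ceil_lt_add_one hA0).le
    refine h2.trans ?_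
    have h3 : 0 ≤ Real.log (m : ℝ) ^ 3 := by
      have : (0 : ℝ) ≤ Real.log m := by linarith
      positivity
    have h4 : ((n : ℝ) - m) * Real.log (m + 1) ^ 3 ≤ 8 * (((n : ℝ) - m) * Real.log m ^ 3) := by
      nlinarith [mul_le_mul_of_nonneg_left hcube hk0]
    have h5 : 0 ≤ ((n : ℝ) - m) * Real.log m ^ 3 := mul_nonneg hk0 h3
    rw [hA, div_add' _ _ _ hε2.ne']
    apply div_le_div_of_nonneg_right _ hε2.le
    nlinarith [mul_le_mul_of_nonneg_left h4 hC₁.le, mul_nonneg hC₁.le h5, mul_nonneg hC₁.le (Real.sqrt_nonneg (m : ℝ))]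
  · set A : ℝ := 5000 * (m * Real.log (m / ε + 2)) / ε ^ 2 with hA
    have h1 : sInf {t : ℕ | Testable n m ε t} ≤ ⌈A⌉₊ := Nat.sInf_le (hvc _ (Nat.le_ceil _))
    have hlog : Real.log (m / ε + 2) ≤ 2 * Real.log (m / ε) := by
      have h3 : (2 : ℝ) * Real.log (m / ε) = Real.log ((m / ε) ^ 2) := by
        rw [Real.log_pow]
        norm_num
      rw [h3]
      apply Real.log_le_log (by positivity)
      nlinarith
    have hlog0 : 0 ≤ Real.log ((m : ℝ) / ε + 2) := Real.log_nonneg (by linarith)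
    have hA0 : 0 ≤ A := by
      rw [hA]
      positivity
    have h2 : ((sInf {t : ℕ | Testable n m ε t} : ℕ) : ℝ) ≤ A + 1 := by
      calc ((sInf {t : ℕ | Testable n m ε t} : ℕ) : ℝ) ≤ (⌈A⌉₊ : ℝ) := by exact_mod_cast h1
        _ ≤ A + 1 := (Nat.ceil_lt_add_one hA0).le
    refine h2.trans ?_
    rw [hA, div_add' _ _ _ hε2.ne']
    apply div_le_div_of_nonneg_right _ hε2.le
    have h6 : (m : ℝ) * Real.log (m / ε + 2) ≤ 2 * (m * Real.log (m / ε)) := by
      nlinarith [mul_le_mul_of_nonneg_left hlog hm0.le]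
    have h7 : (1 : ℝ) ≤ m * Real.log (m / ε) := by nlinarith
    nlinarith [mul_nonneg hC₁.le (by linarith : (0 : ℝ) ≤ m * Real.log (m / ε))]
  · intro hε20
    have h1 := hsq m n 1 _ ε hm hn le_rfl hε (by norm_num; linarith) hleast.1
    refine le_trans ?_ h1
    apply div_le_div_of_nonneg_right _ hε2.le
    have h2 : 0 ≤ min ((m : ℝ) / ((1 : ℕ) : ℝ)) (((n : ℝ) - m) / (((1 : ℕ) : ℝ)) ^ 2) *
        (m : ℝ) ^ (-(1 / (2 * (((1 : ℕ) : ℝ))))) := by
      apply mul_nonneg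
      · apply le_min
        · positivity
        · apply div_nonneg hk0 (by positivity)
      · positivity
    have h3 : 0 ≤ Real.sqrt (m : ℝ) := Real.sqrt_nonneg _
    calc min (c₁ / 4) c₂ * Real.sqrt m ≤ c₂ * Real.sqrt m :=
          mul_le_mul_of_nonneg_right (min_le_right _ _) h3
      _ ≤ _ := mul_le_mul_of_nonneg_left (by linarith) hc₂.le
  · intro hεL
    have h1 := hlow m n _ ε hm hn hε hεL hleast.1
    refine le_trans ?_ h1
    apply div_le_div_of_nonneg_right _ hε2.le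
    have hlogb : Real.logb 2 m = Real.log m / Real.log 2 := rfl
    have hlb0 : 0 < Real.logb 2 m := by
      rw [hlogb]
      apply div_pos <;> linarith
    have hle : Real.logb 2 m ≤ 2 * Real.log m := by
      rw [hlogb, div_le_iff₀ (by linarith)]
      nlinarith
    have hmin : 0 ≤ min ((n : ℝ) - m) m := le_min hk0 hm0.le
    have h2 : min ((n : ℝ) - m) m / Real.log m ^ 2 ≤ 4 * (min ((n : ℝ) - m) m / Real.logb 2 m ^ 2) := by
      rw [mul_div_assoc', div_le_div_iff₀ (by positivity) (by positivity)]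
      have h5 : Real.logb 2 m ^ 2 ≤ (2 * Real.log m) ^ 2 := pow_le_pow_left₀ hlb0.le hle 2
      nlinarith [mul_le_mul_of_nonneg_left h5 hmin]
    have h3 : 0 ≤ Real.sqrt (m : ℝ) := Real.sqrt_nonneg _
    have h4 : 0 ≤ min ((n : ℝ) - m) m / Real.log m ^ 2 := by positivity
    calc min (c₁ / 4) c₂ * (Real.sqrt m + min ((n : ℝ) - m) m / Real.log m ^ 2)
        ≤ c₁ / 4 * (Real.sqrt m + min ((n : ℝ) - m) m / Real.log m ^ 2) :=
          mul_le_mul_of_nonneg_right (min_le_left _ _) (by positivity)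
      _ ≤ c₁ * (Real.sqrt m + min ((n : ℝ) - m) m / Real.logb 2 m ^ 2) := by
          nlinarith [mul_nonneg hc₁.le h3, mul_le_mul_of_nonneg_left h2 hc₁.le]

end Pool.Agent.Results.MP_f7f4e7_lc.SampleComplexity
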